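import Pool.Agent.H47.WTH.Stmts

/-!
# WTH, row CLA: the count over the sets of known primes
-/

set_option autoImplicit false

namespace Pool.WTH

open Finset Pool.Agent.H98.ABCR Pool.SHA Pool.VIO

theorem cla_thm (h1 : S_LPF) : S_CLA := by
  classical
  intro c η ε hc hc1 hη hη1 hε
  obtain ⟨lam, κ0, X0, hlam, hκ0, hX0, hmain⟩ := h1 c η ε hc hc1 hη hη1 hε
  refine ⟨lam, κ0, X0, hlam, hκ0, hX0, ?_⟩
  intro X h0 Y F hX hh0 hY hF
  have hsub : F ⊆ ((univ : Finset (Fin 3)) ×ˢ (Icc 1 ⌊Y⌋₊)).biUnion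
      (fun z => F.filter (fun v => Fam X h0 c η lam z.2.primeFactors z.1 v)) := by
    intro v hv
    obtain ⟨i, K, hKY, hfam⟩ := hF v hv
    have hpr : ∀ p ∈ K, p.Prime := fun p hp => Nat.prime_of_mem_primeFactors (hfam.sub hp)
    rw [mem_biUnion]
    refine ⟨(i, ∏ q ∈ K, q), ?_, ?_⟩
    · rw [mem_product]
      refine ⟨mem_univ _, ?_⟩
      rw [mem_Icc]
      refine ⟨?_, Nat.le_floor hKY⟩
      exact Finset.prod_pos fun q hq => (hpr q hq).pos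
    · rw [mem_filter]
      refine ⟨hv, ?_⟩
      show Fam X h0 c η lam (∏ q ∈ K, q).primeFactors i v
      rw [Nat.primeFactors_prod hpr]
      exact hfam
  have h2 : (F.card : ℝ) ≤ ∑ z ∈ (univ : Finset (Fin 3)) ×ˢ (Icc 1 ⌊Y⌋₊),
      ((F.filter (fun v => Fam X h0 c η lam z.2.primeFactors z.1 v)).card : ℝ) := by
    rw [← Nat.cast_sum]
    exact_mod_cast (card_le_card hsub).trans card_biUnion_le
  refine h2.trans ?_
  have h3 : ∑ z ∈ (univ : Finset (Fin 3)) ×ˢ (Icc 1 ⌊Y⌋₊),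
      ((F.filter (fun v => Fam X h0 c η lam z.2.primeFactors z.1 v)).card : ℝ) ≤
      ∑ _z ∈ (univ : Finset (Fin 3)) ×ˢ (Icc 1 ⌊Y⌋₊), X ^ ε := by
    refine sum_le_sum fun z _ => ?_
    exact hmain X h0 z.2.primeFactors z.1 _ hX hh0 fun v hv => (mem_filter.1 hv).2
  refine h3.trans ?_
  rw [sum_const, card_product, card_univ, Fintype.card_fin, Nat.card_Icc, nsmul_eq_mul]
  have hXp : 0 ≤ X ^ ε := Real.rpow_nonneg (by linarith) _
  apply mul_le_mul_of_nonneg_right _ hXp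
  push_cast
  have h4 : ((⌊Y⌋₊ + 1 - 1 : ℕ) : ℝ) ≤ Y := by
    rw [Nat.add_sub_cancel]
    exact Nat.floor_le (by linarith)
  have h5 : (3 : ℝ) * ((⌊Y⌋₊ + 1 - 1 : ℕ) : ℝ) ≤ 3 * Y := by linarith
  simpa using h5

end Pool.WTH
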