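import Pool.Agent.H47.WTH.Stmts

/-!
# WTH, row CLC: triples with two primes greater than the cube root
-/

set_option autoImplicit false

namespace Pool.WTH

open Finset Pool.Agent.H98.ABCR Pool.SHA Pool.VIO

namespace H2CLC

lemma log_small (κ η : ℝ) (hκ : 1 ≤ κ) (hη : 0 < η) :
    ∃ X1 : ℝ, ∀ x : ℝ, X1 ≤ x → κ * Real.log x ≤ x ^ η := by
  have h := (isLittleO_log_rpow_atTop hη).bound (show (0 : ℝ) < 1 / κ by positivity)
  obtain ⟨X1, hX1⟩ := Filter.eventually_atTop.1 h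
  refine ⟨max X1 1, fun x hx => ?_⟩
  have h1 := hX1 x ((le_max_left _ _).trans hx)
  have hx1 : 1 ≤ x := (le_max_right _ _).trans hx
  rw [Real.norm_of_nonneg (Real.log_nonneg hx1),
    Real.norm_of_nonneg (Real.rpow_nonneg (by linarith) _)] at h1
  have hκ0 : 0 < κ := by linarith
  calc κ * Real.log x ≤ κ * (1 / κ * x ^ η) := mul_le_mul_of_nonneg_left h1 hκ0.le
    _ = x ^ η := by field_simp

/-- the number of pairs with bounded sum -/
lemma card_box (F : Finset (ℕ × ℕ)) (B : ℝ) (hB : 0 ≤ B)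
    (hF : ∀ v ∈ F, 0 < v.1 ∧ 0 < v.2 ∧ ((v.1 + v.2 : ℕ) : ℝ) ≤ B) : (F.card : ℝ) ≤ B ^ 2 := by
  have hsub : F ⊆ Icc 1 ⌊B⌋₊ ×ˢ Icc 1 ⌊B⌋₊ := by
    intro v hv
    obtain ⟨h1, h2, h3⟩ := hF v hv
    have h4 : v.1 + v.2 ≤ ⌊B⌋₊ := Nat.le_floor h3
    rw [mem_product, mem_Icc, mem_Icc]
    refine ⟨⟨h1, by omega⟩, h2, by omega⟩
  have h1 := card_le_card hsub
  rw [card_product, Nat.card_Icc, Nat.add_sub_cancel] at h1
  have h2 : (F.card : ℝ) ≤ (⌊B⌋₊ : ℝ) * ⌊B⌋₊ := by exact_mod_cast h1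
  have h3 : (⌊B⌋₊ : ℝ) ≤ B := Nat.floor_le hB
  have h4 : (0 : ℝ) ≤ (⌊B⌋₊ : ℝ) := Nat.cast_nonneg _
  nlinarith

/-- the entropy term is small -/
lemma ent_small (κ η δ L a t : ℝ) (hκ : 1 ≤ κ) (hη : 0 < η) (hδ0 : 0 < δ) (hδ1 : δ ≤ 1)
    (hδ : δ * (40 * κ) ≤ η ^ 2) (hL : 0 ≤ L) (ha0 : 0 ≤ a) (ha : a ≤ κ * L) (ht : 1 ≤ t)
    (htL : t ≤ 2 * δ * L) : t * Real.log (2 + a / t) ≤ η * L := by
  have ht0 : 0 < t := by linarith
  have hy0 : 0 < 2 + a / t := by positivity
  set s : ℝ := Real.sqrt (2 + a / t) with hs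
  have hs0 : 0 < s := Real.sqrt_pos.2 hy0
  have hs2 : s ^ 2 = 2 + a / t := Real.sq_sqrt hy0.le
  have h1 : Real.log (2 + a / t) ≤ 2 * s := by
    rw [← hs2, Real.log_pow]
    push_cast
    have := Real.log_le_sub_one_of_pos hs0
    linarith
  have h2 : t * Real.log (2 + a / t) ≤ t * (2 * s) := mul_le_mul_of_nonneg_left h1 ht0.le
  refine h2.trans ?_
  have h3 : (t * (2 * s)) ^ 2 = 4 * (2 * t ^ 2 + a * t) := by
    have : (t * (2 * s)) ^ 2 = 4 * t ^ 2 * s ^ 2 := by ring
    rw [this, hs2]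
    field_simp
  have h4 : a * t ≤ (κ * L) * (2 * δ * L) := mul_le_mul ha htL ht0.le (by positivity)
  have h5 : t ^ 2 ≤ (2 * δ * L) ^ 2 := pow_le_pow_left₀ ht0.le htL 2
  have h6 : δ ^ 2 ≤ κ * δ := by nlinarith
  have h7 : 4 * (2 * (2 * δ * L) ^ 2 + (κ * L) * (2 * δ * L)) ≤ (η * L) ^ 2 := by
    have e : 4 * (2 * (2 * δ * L) ^ 2 + (κ * L) * (2 * δ * L)) =
        (32 * δ ^ 2 + 8 * (κ * δ)) * L ^ 2 := by ring
    rw [e, mul_pow]
    apply mul_le_mul_of_nonneg_right _ (sq_nonneg L)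
    nlinarith
  have h8 : (t * (2 * s)) ^ 2 ≤ (η * L) ^ 2 := by
    rw [h3]
    linarith
  exact le_of_sq_le_sq h8 (by positivity)

end H2CLC

open H2CLC in
theorem clc_thm (h1 : Pool.PW.S_PWF) (h2 : Pool.FEX.S_OMB) : S_CLC := by
  classical
  intro ε hε
  obtain ⟨K, η, C, hK, hη, hC, hmain⟩ := h1 2 0 ε hε
  refine ⟨K, hK, ?_⟩
  intro κ hκ
  have hκ0 : 0 < κ := by linarith
  obtain ⟨δ, hδdef⟩ : ∃ δ : ℝ, δ = min 1 (η ^ 2 / (40 * κ)) := ⟨_, rfl⟩
  have hδ0 : 0 < δ := by rw [hδdef]; exact lt_min one_pos (by positivity)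
  have hδ1 : δ ≤ 1 := by rw [hδdef]; exact min_le_left _ _
  have hδ : δ * (40 * κ) ≤ η ^ 2 := by
    rw [← le_div_iff₀ (by positivity), hδdef]
    exact min_le_right _ _
  obtain ⟨C', hC', homb⟩ := h2 (Real.exp (1 / δ)) 1 (Real.one_le_exp (by positivity)) one_pos
  obtain ⟨X1, hX1⟩ := log_small κ η hκ hη
  obtain ⟨X0, hX0def⟩ : ∃ X0 : ℝ, X0 = max (max X1 C') 1 := ⟨_, rfl⟩
  have hX0X1 : X1 ≤ X0 := by rw [hX0def]; exact (le_max_left _ _).trans (le_max_left _ _)
  have hX0C' : C' ≤ X0 := by rw [hX0def]; exact (le_max_right _ _).trans (le_max_left _ _)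
  have hX01 : 1 ≤ X0 := by rw [hX0def]; exact le_max_right _ _
  have hB0 : (0 : ℝ) ≤ X0 ^ κ := Real.rpow_nonneg (by linarith) _
  refine ⟨C + (X0 ^ κ) ^ 2, by nlinarith [sq_nonneg (X0 ^ κ)], ?_⟩
  intro X F hX hF
  have hX0' : 0 < X := by linarith
  have hXe : 1 ≤ X ^ (1 / 3 + ε) := Real.one_le_rpow hX (by positivity)
  rcases lt_or_ge X X0 with hlt | hge
  · -- small `X`
    have h3 : (F.card : ℝ) ≤ (X0 ^ κ) ^ 2 := by
      apply card_box F _ hB0
      intro v hv
      obtain ⟨htri, -, -, hup, -⟩ := hF v hv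
      refine ⟨htri.1, htri.2.1, ?_⟩
      have h4 : (0 : ℝ) < ((v.1 + v.2 : ℕ) : ℝ) := by
        have := htri.1
        exact_mod_cast (by omega : 0 < v.1 + v.2)
      have h5 : ((v.1 + v.2 : ℕ) : ℝ) ≤ X ^ κ := by
        rw [Real.rpow_def_of_pos hX0', ← Real.log_le_iff_le_exp h4]
        have : hh v ≤ κ * Real.log X := hup
        unfold hh at this
        linarith
      exact h5.trans (Real.rpow_le_rpow hX0'.le hlt.le hκ0.le)
    have h4 : (X0 ^ κ) ^ 2 ≤ (C + (X0 ^ κ) ^ 2) * X ^ (1 / 3 + ε) := by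
      nlinarith [sq_nonneg (X0 ^ κ)]
    exact h3.trans h4
  · -- large `X`
    have hL : 0 ≤ Real.log X := Real.log_nonneg hX
    have hκX : κ * Real.log X ≤ X ^ η := hX1 X (hX0X1.trans hge)
    have hY1 : 1 ≤ X ^ (1 / 3 : ℝ) := Real.one_le_rpow hX (by norm_num)
    have h3 : (F.card : ℝ) ≤ C * X ^ (1 / 3 : ℝ) * X ^ ε := by
      apply hmain X (X ^ (1 / 3 : ℝ)) F hX hY1
      intro v hv
      obtain ⟨htri, hrad, hlo, hup, p1, p2, hp1, hp2, hne, hd1, hd2, hb1, hb2⟩ := hF v hv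
      have h4n : 0 < v.1 + v.2 := by have := htri.1; omega
      have h4 : (0 : ℝ) < ((v.1 + v.2 : ℕ) : ℝ) := by exact_mod_cast h4n
      have hnn : nn v ≠ 0 := by
        unfold nn
        have h5 := htri.1
        have h6 := htri.2.1
        positivity
      have hh0 : 0 ≤ hh v := by
        unfold hh
        apply Real.log_nonneg
        exact_mod_cast h4n
      have hhdef : Real.log ((v.1 + v.2 : ℕ) : ℝ) = hh v := rfl
      -- the two primes divide the radical
      have hm1 : p1 ∈ (nn v).primeFactors := Nat.mem_primeFactors.2 ⟨hp1, hd1, hnn⟩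
      have hm2 : p2 ∈ (nn v).primeFactors := Nat.mem_primeFactors.2 ⟨hp2, hd2, hnn⟩
      have hr1 : p1 ∣ RR v := dvd_prod_of_mem (fun p => p) hm1
      have hr2 : p2 ∣ RR v := dvd_prod_of_mem (fun p => p) hm2
      have hcop : p1.Coprime p2 := (Nat.coprime_primes hp1 hp2).2 hne
      have hr12 : p1 * p2 ∣ RR v := hcop.mul_dvd_of_dvd_of_dvd hr1 hr2
      have hRRpos : 0 < RR v := by
        unfold RR rad
        exact prod_pos fun p hp => (Nat.prime_of_mem_primeFactors hp).pos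
      obtain ⟨r, hr⟩ := hr12
      have hrpos : 0 < r := by
        rcases Nat.eq_zero_or_pos r with h | h
        · rw [h, mul_zero] at hr
          omega
        · exact h
      have hrX : (r : ℝ) ≤ X ^ (1 / 3 : ℝ) := by
        have h5 : (RR v : ℝ) = (p1 : ℝ) * p2 * r := by rw [hr]; push_cast; ring
        rw [h5] at hrad
        have h6 : X = X ^ (1 / 3 : ℝ) * X ^ (1 / 3 : ℝ) * X ^ (1 / 3 : ℝ) := by
          rw [← Real.rpow_add hX0', ← Real.rpow_add hX0']
          norm_num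
        have h7 : (0 : ℝ) < X ^ (1 / 3 : ℝ) := by positivity
        set y : ℝ := X ^ (1 / 3 : ℝ) with hy
        have h8 : y * y ≤ (p1 : ℝ) * p2 := mul_le_mul hb1.le hb2.le h7.le (by positivity)
        have h9 : (y * y) * r ≤ (y * y) * y := by
          calc (y * y) * r ≤ (p1 : ℝ) * p2 * r := mul_le_mul_of_nonneg_right h8 (Nat.cast_nonneg r)
            _ ≤ X := hrad
            _ = (y * y) * y := h6
        exact le_of_mul_le_mul_left h9 (by positivity)
      have hrdvd : r ∣ RR v := ⟨p1 * p2, by rw [hr]; ring⟩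
      refine ⟨htri, hrad, ?_, ?_, r, hrdvd, hrX, ?_, ?_⟩
      · rw [Real.rpow_def_of_pos hX0', ← Real.le_log_iff_exp_le h4, hhdef]
        linarith
      · rw [hhdef]
        exact hup.trans hκX
      · have hsub : (nn v).primeFactors.filter (fun p => ¬ p ∣ r ∧ 0 < (nn v).factorization p) ⊆
            {p1, p2} := by
          intro p hp
          rw [mem_filter] at hp
          obtain ⟨hpm, hpr, -⟩ := hp
          have hpp := Nat.prime_of_mem_primeFactors hpm
          have h5 : p ∣ RR v := dvd_prod_of_mem (fun p => p) hpm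
          rw [hr] at h5
          rcases (hpp.dvd_mul).1 h5 with h6 | h6
          · rw [mem_insert, mem_singleton]
            rcases (hpp.dvd_mul).1 h6 with h7 | h7
            · exact Or.inl ((Nat.prime_dvd_prime_iff_eq hpp hp1).1 h7)
            · exact Or.inr ((Nat.prime_dvd_prime_iff_eq hpp hp2).1 h7)
          · exact absurd h6 hpr
        unfold Pool.PW.dex
        exact card_image_le.trans ((card_le_card hsub).trans card_le_two)
      · rw [hhdef]
        rcases Nat.eq_zero_or_pos (om r) with h0 | h0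
        · rw [h0, Nat.cast_zero, zero_mul]
          positivity
        · have ht : (1 : ℝ) ≤ (om r : ℝ) := by exact_mod_cast h0
          apply ent_small κ η δ (Real.log X) (hh v) (om r) hκ hη hδ0 hδ1 hδ hL hh0 hup ht
          have h5 := homb r hrpos
          rw [Real.rpow_one, ← Real.exp_nat_mul] at h5
          have hr0 : (0 : ℝ) < r := by exact_mod_cast hrpos
          have h6 : ((om r + 1 : ℕ) : ℝ) * (1 / δ) ≤ Real.log (C' * r) := by
            rw [Real.le_log_iff_exp_le (by positivity)]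
            exact h5
          rw [Real.log_mul (by positivity) hr0.ne'] at h6
          have h7 : Real.log C' ≤ Real.log X :=
            Real.log_le_log (by linarith) (hX0C'.trans hge)
          have h8 : (r : ℝ) ≤ X := by
            refine hrX.trans ?_
            calc X ^ (1 / 3 : ℝ) ≤ X ^ (1 : ℝ) := Real.rpow_le_rpow_of_exponent_le hX (by norm_num)
              _ = X := Real.rpow_one X
          have h9 : Real.log r ≤ Real.log X := Real.log_le_log hr0 h8
          push_cast at h6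
          have h10 : ((om r : ℝ) + 1) ≤ δ * (2 * Real.log X) := by
            have h11 : ((om r : ℝ) + 1) * (1 / δ) ≤ 2 * Real.log X := by linarith
            have h12 := mul_le_mul_of_nonneg_left h11 hδ0.le
            calc ((om r : ℝ) + 1) = δ * (((om r : ℝ) + 1) * (1 / δ)) := by field_simp
              _ ≤ _ := h12
          linarith
    refine h3.trans ?_
    rw [mul_assoc, ← Real.rpow_add hX0']
    apply mul_le_mul_of_nonneg_right _ (by linarith)
    nlinarith [sq_nonneg (X0 ^ κ)]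

end Pool.WTH
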